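import Pool.Agent.J6H49.SZ.Win

/-!
# The keys are not guessed
-/

set_option autoImplicit false

namespace Pool.Agent.J6H49.SZ

open Pool.Agent.NPC Pool.Agent.H628R3.RO Filter Pool.Agent.J6H49.OP Pool.Agent.J6H49.IP
open MeasureTheory
open Pool.Agent.J6H54.RO
open Pool.Agent.H620R2.Gauge (SAlg)
open Pool.Agent.TH678.GC (join)
open Pool.Agent.TH678.RS (bt)
open Pool.Agent.Y626.WX (Cp cod agree_emb)
open Pool.Agent.J6H49.PHC (oracle)
open Pool.Agent.J6H49.AM
open Pool.Agent.J6H7.RO (ovw ovw_pos ovw_off)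

theorem out_eq {M : Alg} {B B' : Oracle} {y : List Bool}
    (hB : ∀ q : List Bool, q.length ≤ (qb M).eval y.length → B q = B' q) :
    M.out B y = M.out B' y := by
  obtain ⟨Q, -, hQ2, hQ3⟩ := qb_spec M B' y
  exact hQ3 _ fun q hq => hB q (hQ2 q hq)

theorem cnt_exists_mem {F Ω : Type} [Fintype Ω] (Q : Finset F) (E : F → Ω → Prop) :
    cnt (fun ω => ∃ f ∈ Q, E f ω) ≤ ∑ f ∈ Q, cnt (E f) := by
  classical
  simp only [cnt_eq]
  refine (Finset.card_le_card ?_).trans (Finset.card_biUnion_le (s := Q)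
    (t := fun f => Finset.univ.filter (E f)))
  intro ω hω
  rw [Finset.mem_filter] at hω
  obtain ⟨-, f, hf, h⟩ := hω
  exact Finset.mem_biUnion.2 ⟨f, hf, Finset.mem_filter.2 ⟨Finset.mem_univ _, h⟩⟩

theorem cnt_le_one {Ω : Type} [Fintype Ω] {E : Ω → Prop}
    (h : ∀ ω ω', E ω → E ω' → ω = ω') : cnt E ≤ 1 := by
  classical
  rw [cnt_eq, Finset.card_le_one]
  intro a ha b hb
  rw [Finset.mem_filter] at ha hb
  exact h a b ha.2 hb.2

/-- the positions of the key -/
def kq (h : ℕ → ℕ) (m : ℕ) (i : Fin (2 ^ h m)) : List Bool := kp m i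

theorem kq_inj (h : ℕ → ℕ) (m : ℕ) : Function.Injective (kq h m) := by
  intro i i' hi
  unfold kq kp at hi
  exact Fin.ext (pos_inj hi).2.1

theorem key_ovw (h : ℕ → ℕ) (m : ℕ) (ω : Fin (2 ^ h m) → Bool) (A : Oracle) :
    key h m (ovw (kq h m) ω A) = List.ofFn ω := by
  apply List.ext_getElem
  · rw [length_key, List.length_ofFn]
  · intro i h1 h2
    rw [List.length_ofFn] at h2
    simp only [key, List.getElem_map, List.getElem_range, List.getElem_ofFn]
    exact ovw_pos (kq_inj h m) ω A ⟨i, h2⟩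

theorem ovw_short (h : ℕ → ℕ) (m : ℕ) (ω : Fin (2 ^ h m) → Bool) (A : Oracle) {u : List Bool}
    (hu : u.length ≤ G m) : ovw (kq h m) ω A u = A u := by
  refine ovw_off _ A fun i hi => ?_
  have := length_kp m i
  unfold kq at hi
  rw [hi] at this
  omega

/-- the length of the padded inputs -/
def ln (c n : ℕ) : ℕ := 2 * n + 1 + (2 ^ (n + 1)) ^ c

theorem length_pd' {c n : ℕ} {x : List Bool} (hx : x.length = n) : (pd c x).length = ln c n := by
  rw [length_pd, hx]
  rfl

theorem ln_mono (c : ℕ) : Monotone (ln c) := by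
  intro n n' hn
  unfold ln
  have : (2 ^ (n + 1)) ^ c ≤ (2 ^ (n' + 1)) ^ c :=
    Nat.pow_le_pow_left (Nat.pow_le_pow_right (by norm_num) (by omega)) _
  omega

/-- the tables of the level `m` make a difference for an input of length `n` -/
def Bad (Φ : Oracle → Oracle) (C : Oracle) (h : ℕ → ℕ) (en : ℕ → Alg × ℕ) (M : Alg) (c n m : ℕ) :
    Set Oracle :=
  {A | ∃ x : List Bool, x.length = n ∧
    M.out (Om Φ C h en (m + 1) A) (pd c x) ≠ M.out (Om Φ C h en m A) (pd c x)}

section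

variable {Φ : Oracle → Oracle} {C : Oracle} {h : ℕ → ℕ} {en : ℕ → Alg × ℕ} {α : ℕ → ℕ}
  {g : ℕ → SAlg × Polynomial ℕ} {S : ℕ → Polynomial ℕ}

theorem loc_Bad (hc : Cp g S (bt α) Φ) (hh : ∀ n, h n ≤ n) {M : Alg} {c n m : ℕ}
    (hG : (qb M).eval (ln c n) ≤ G m) :
    Loc {u : List Bool | u.length ≤ G (m + 1)} (Bad Φ C h en M c n m) := by
  intro A A' hA
  unfold Bad
  simp only [Set.mem_setOf_eq]
  refine exists_congr fun x => and_congr_right fun hx => ?_
  have h1 : M.out (Om Φ C h en (m + 1) A) (pd c x) = M.out (Om Φ C h en (m + 1) A') (pd c x) :=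
    out_eq fun q hq => by
      rw [length_pd' hx] at hq
      exact Om_congr hc hh (fun u hu => hA u hu) (hq.trans (hG.trans (G_mono (by omega))))
  have h2 : M.out (Om Φ C h en m A) (pd c x) = M.out (Om Φ C h en m A') (pd c x) :=
    out_eq fun q hq => by
      rw [length_pd' hx] at hq
      exact Om_congr hc hh (fun u hu => hA u (hu.trans (G_mono (by omega)))) (hq.trans hG)
  rw [h1, h2]

theorem meas_Bad (hc : Cp g S (bt α) Φ) (hh : ∀ n, h n ≤ n) {M : Alg} {c n m : ℕ}
    (hG : (qb M).eval (ln c n) ≤ G m) : MeasurableSet (Bad Φ C h en M c n m) :=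
  measurableSet_of_loc (finite_length_le _) (loc_Bad hc hh hG)

theorem count_Bad (hc : Cp g S (bt α) Φ) (hh : ∀ n, h n ≤ n) {M : Alg} {c n m : ℕ}
    (hG : (qb M).eval (ln c n) ≤ G m)
    (hR : ∀ s, 2 ^ h m ≤ s → (qb M).eval (ln c n) < s ^ (bt α s + 1)) (A : Oracle) :
    cnt (fun ω : Fin (2 ^ h m) → Bool => ovw (kq h m) ω A ∈ Bad Φ C h en M c n m) ≤
      2 ^ n * M.p.eval (ln c n) := by
  classical
  choose Q hQ1 hQ2 hQ3 using fun x : Blk n => qb_spec M (Om Φ C h en m A) (pd c (List.ofFn x))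
  have h1 : ∀ ω : Fin (2 ^ h m) → Bool, ovw (kq h m) ω A ∈ Bad Φ C h en M c n m →
      ∃ x : Blk n, ∃ q ∈ Q x, ∃ e x', q = [false, true, true] ++
        pos m e (List.ofFn ω ++ x') := by
    rintro ω ⟨x, hx, hne⟩
    obtain ⟨x, rfl⟩ : ∃ x' : Blk n, List.ofFn x' = x := by
      subst hx
      exact ⟨fun i => x[i.1], List.ofFn_getElem⟩
    refine ⟨x, ?_⟩
    by_contra hcon
    push Not at hcon
    apply hne
    set A' := ovw (kq h m) ω A with hA'
    have hl : (pd c (List.ofFn x)).length = ln c n := length_pd' (List.length_ofFn)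
    have h2 : ∀ q ∈ Q x, Om Φ C h en m A' q = Om Φ C h en m A q := by
      intro q hq
      have h3 := hQ2 x q hq
      rw [hl] at h3
      exact Om_congr hc hh (fun u hu => ovw_short h m ω A hu) (h3.trans hG)
    have h3 : ∀ q ∈ Q x, Om Φ C h en (m + 1) A' q = Om Φ C h en m A q := by
      intro q hq
      rw [← h2 q hq]
      have h4 := hQ2 x q hq
      rw [hl] at h4
      refine Om_succ hc hR h4 fun e x' => ?_
      rw [hA', key_ovw]
      exact hcon q hq e x'
    rw [hQ3 x _ h3, hQ3 x _ h2]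
  refine (cnt_mono h1).trans ((cnt_exists _).trans ?_)
  have h2 : ∀ x : Blk n, cnt (fun ω : Fin (2 ^ h m) → Bool => ∃ q ∈ Q x, ∃ e x',
      q = [false, true, true] ++ pos m e (List.ofFn ω ++ x')) ≤ M.p.eval (ln c n) := by
    intro x
    refine (cnt_exists_mem _ _).trans ?_
    have hl : (pd c (List.ofFn x)).length = ln c n := length_pd' (List.length_ofFn)
    have h3 : ∀ q ∈ Q x, cnt (fun ω : Fin (2 ^ h m) → Bool => ∃ e x',
        q = [false, true, true] ++ pos m e (List.ofFn ω ++ x')) ≤ 1 := by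
      intro q _
      refine cnt_le_one ?_
      rintro ω ω' ⟨e, x₁, h4⟩ ⟨e', x₂, h5⟩
      rw [h4] at h5
      have h6 := List.append_cancel_left h5
      obtain ⟨-, -, h7⟩ := pos_inj h6
      exact List.ofFn_injective (List.append_inj_left h7 (by simp))
    refine (Finset.sum_le_sum h3).trans ?_
    rw [Finset.sum_const, smul_eq_mul, mul_one]
    have := hQ1 x
    rwa [hl] at this
  refine (Finset.sum_le_sum fun x _ => h2 x).trans ?_
  rw [Finset.sum_const, smul_eq_mul, Finset.card_univ]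
  exact le_of_eq (by simp)

theorem prob_Bad (hc : Cp g S (bt α) Φ) (hh : ∀ n, h n ≤ n) {M : Alg} {c n m : ℕ}
    (hG : (qb M).eval (ln c n) ≤ G m)
    (hR : ∀ s, 2 ^ h m ≤ s → (qb M).eval (ln c n) < s ^ (bt α s + 1)) :
    prob (Bad Φ C h en M c n m) ≤ (2 ^ n * M.p.eval (ln c n) : ℕ) / 2 ^ (2 ^ h m) := by
  refine prob_le_of_count (kq_inj h m) (meas_Bad hc hh hG) fun A => ?_
  have h1 := count_Bad (C := C) (en := en) hc hh hG hR A
  rw [Fintype.card_fin, mul_div_cancel₀ _ (by positivity)]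
  exact_mod_cast h1

/-- the tables of the level `m` make a difference for an input of length at most `m` -/
def Zb (Φ : Oracle → Oracle) (C : Oracle) (h : ℕ → ℕ) (en : ℕ → Alg × ℕ) (M : Alg) (c m : ℕ) :
    Set Oracle := ⋃ n ∈ Finset.range (m + 1), Bad Φ C h en M c n m

theorem prob_Zb (hc : Cp g S (bt α) Φ) (hh : ∀ n, h n ≤ n) {M : Alg} {c m : ℕ}
    (hG : (qb M).eval (ln c m) ≤ G m)
    (hR : ∀ s, 2 ^ h m ≤ s → (qb M).eval (ln c m) < s ^ (bt α s + 1)) :
    prob (Zb Φ C h en M c m) ≤ ((m + 1) * (2 ^ m * M.p.eval (ln c m)) : ℕ) / 2 ^ (2 ^ h m) := by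
  unfold Zb prob
  refine (measureReal_biUnion_finset_le _ _).trans ?_
  have h1 : ∀ n ∈ Finset.range (m + 1), randomOracle.real (Bad Φ C h en M c n m) ≤
      (2 ^ m * M.p.eval (ln c m) : ℕ) / 2 ^ (2 ^ h m) := by
    intro n hn
    rw [Finset.mem_range] at hn
    have h2 : (qb M).eval (ln c n) ≤ (qb M).eval (ln c m) := eval_mono _ (ln_mono c (by omega))
    refine (prob_Bad hc hh (h2.trans hG) fun s hs => h2.trans_lt (hR s hs)).trans ?_
    refine div_le_div_of_nonneg_right ?_ (by positivity)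
    have h3 : 2 ^ n * M.p.eval (ln c n) ≤ 2 ^ m * M.p.eval (ln c m) :=
      Nat.mul_le_mul (Nat.pow_le_pow_right (by norm_num) (by omega))
        (eval_mono _ (ln_mono c (by omega)))
    exact_mod_cast h3
  refine (Finset.sum_le_sum h1).trans ?_
  rw [Finset.sum_const, Finset.card_range, nsmul_eq_mul]
  refine le_of_eq ?_
  push_cast
  ring

end

end Pool.Agent.J6H49.SZ
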