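import Pool.Agent.J6H49.ES.Defs

/-!
# Circuits with oracle gates
-/

set_option autoImplicit false

namespace Pool.Agent.J6H49.SZ

open Pool.Agent.NPC Pool.Agent.H628R3.RO

/-- A gate of a circuit with oracle gates. Its arguments are numbers of wires: first come the inputs
of the circuit, and then the outputs of the gates, in this order. An oracle gate `ask l` asks whether
the string carried by the list `l` of wires is in the oracle. -/
inductive Gate : Type
  /-- a constant -/
  | const (b : Bool)
  /-- the negation of a wire -/
  | not (i : ℕ)
  /-- the conjunction of two wires -/
  | and (i j : ℕ)
  /-- the disjunction of two wires -/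
  | or (i j : ℕ)
  /-- a question to the oracle -/
  | ask (l : List ℕ)

/-- the value of the gate, when the values of the wires are `v` -/
def Gate.val (B : Oracle) (v : List Bool) : Gate → Bool
  | .const b => b
  | .not i => !(v.getD i false)
  | .and i j => v.getD i false && v.getD j false
  | .or i j => v.getD i false || v.getD j false
  | .ask l => B (l.map fun i => v.getD i false)

/-- the size of a gate: an oracle gate with `m` inputs has size `m + 1`, the other gates have
size `1` -/
def Gate.size : Gate → ℕ
  | .ask l => l.length + 1
  | _ => 1

/-- the values of all wires, on the input `x` -/
def wires (B : Oracle) (x : List Bool) (C : List Gate) : List Bool :=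
  C.foldl (fun v g => v ++ [g.val B v]) x

/-- The circuit `C` (a list of gates; its output is the last wire) computes the language `L` on the
inputs of length `n`, relative to the oracle `B`. -/
def Computes (B : Oracle) (C : List Gate) (L : Set (List Bool)) (n : ℕ) : Prop :=
  ∀ x : List Bool, x.length = n → ((wires B x C).getLastD false = true ↔ x ∈ L)

/-- the size of a circuit -/
def size (C : List Gate) : ℕ := (C.map Gate.size).sum

/-- a circuit with one oracle gate -/
def one (w : List Bool) (n : ℕ) : List Gate :=
  [.const false, .const true, .ask (w.map (fun b => if b then n + 1 else n) ++ List.range n)]

theorem size_one (w : List Bool) (n : ℕ) : size (one w n) = w.length + n + 3 := by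
  simp only [size, one, Gate.size, List.map_cons, List.map_nil, List.sum_cons, List.sum_nil,
    List.length_append, List.length_map, List.length_range]
  omega

theorem wires_one (B : Oracle) (w x : List Bool) :
    (wires B x (one w x.length)).getLastD false = B (w ++ x) := by
  unfold wires one
  simp only [List.foldl_cons, List.foldl_nil, Gate.val]
  rw [List.getLastD_concat]
  congr 1
  rw [List.map_append, List.map_map]
  congr 1
  · conv_rhs => rw [← List.map_id w]
    apply List.map_congr_left
    intro b _
    cases b
    · simp [List.getD_eq_getElem?_getD]
    · simp [List.getD_eq_getElem?_getD]
  · apply List.ext_getElem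
    · simp
    · intro i h1 h2
      simp only [List.getElem_map, List.getElem_range, List.getD_eq_getElem?_getD,
        List.append_assoc]
      rw [List.getElem?_append_left h2, List.getElem?_eq_getElem h2]
      rfl

end Pool.Agent.J6H49.SZ
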