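import Mathlib

/-!
# The length of the keys
-/

set_option autoImplicit false

namespace Pool.Agent.J6H49.SZ

open Filter

theorem exists_h (b : ℕ → ℕ) (hb : Monotone b) (hb' : Tendsto b atTop atTop) :
    ∃ h : ℕ → ℕ, (∀ m, h m ≤ m) ∧ (∀ k : ℕ, ∀ᶠ m in atTop, k * h m ≤ m) ∧
      (∀ᶠ m in atTop, Nat.sqrt m ≤ h m) ∧
      ∀ c : ℕ, ∀ᶠ m in atTop, ∀ s, 2 ^ h m ≤ s → 2 ^ (c * m) < s ^ (b s + 1) := by
  set β : ℕ → ℕ := fun m => b (2 ^ Nat.sqrt m) with hβ
  set γ : ℕ → ℕ := fun m => Nat.sqrt (min (β m) (Nat.sqrt m)) + 1 with hγ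
  have hsqrt : Tendsto Nat.sqrt atTop atTop := by
    rw [tendsto_atTop]
    intro c
    filter_upwards [eventually_ge_atTop (c * c)] with m hm
    exact Nat.le_sqrt.2 hm
  have hpow : Tendsto (fun n : ℕ => 2 ^ n) atTop atTop := tendsto_pow_atTop_atTop_of_one_lt (by norm_num)
  have hβ' : Tendsto β atTop atTop := hb'.comp (hpow.comp hsqrt)
  have hσ : Tendsto (fun m => Nat.sqrt (min (β m) (Nat.sqrt m))) atTop atTop := by
    rw [tendsto_atTop]
    intro c
    filter_upwards [hβ'.eventually_ge_atTop (c * c), hsqrt.eventually_ge_atTop (c * c)] with m h1 h2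
    exact Nat.le_sqrt.2 (le_min h1 h2)
  have hγ' : Tendsto γ atTop atTop := by
    refine tendsto_atTop_mono (fun m => ?_) hσ
    simp [hγ]
  have hγ1 : ∀ i, 1 ≤ γ i := fun i => by simp [hγ]
  refine ⟨fun m => (Finset.range (m + 1)).sup fun i => i / γ i, ?_, ?_, ?_, ?_⟩
  · intro m
    refine Finset.sup_le fun i hi => ?_
    rw [Finset.mem_range] at hi
    exact (Nat.div_le_self i (γ i)).trans (by omega)
  · intro k
    rcases Nat.eq_zero_or_pos k with rfl | hk
    · exact Eventually.of_forall fun m => by simp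
    obtain ⟨i₀, hi₀⟩ := eventually_atTop.1 (hγ'.eventually_ge_atTop k)
    filter_upwards [eventually_ge_atTop (k * i₀)] with m hm
    have h1 : ((Finset.range (m + 1)).sup fun i => i / γ i) ≤ m / k := by
      refine Finset.sup_le fun i hi => ?_
      rw [Finset.mem_range] at hi
      rcases le_or_gt i₀ i with h | h
      · exact (Nat.div_le_div_left (hi₀ i h) hk).trans (Nat.div_le_div_right (by omega))
      · refine (Nat.div_le_self i (γ i)).trans ?_
        rw [Nat.le_div_iff_mul_le hk]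
        calc i * k ≤ i₀ * k := Nat.mul_le_mul_right _ h.le
          _ = k * i₀ := mul_comm _ _
          _ ≤ m := hm
    calc k * _ ≤ k * (m / k) := Nat.mul_le_mul_left _ h1
      _ ≤ m := Nat.mul_div_le m k
  · filter_upwards [hσ.eventually_ge_atTop 4] with m hm
    set σ := Nat.sqrt (min (β m) (Nat.sqrt m)) with hσd
    have h1 : σ * σ ≤ min (β m) (Nat.sqrt m) := Nat.sqrt_le _
    have h3 : σ * σ ≤ Nat.sqrt m := h1.trans (min_le_right _ _)
    have hg : γ m = σ + 1 := rfl
    have h4 : σ + 1 ≤ Nat.sqrt m := by nlinarith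
    have h5 : Nat.sqrt m ≤ m / γ m := by
      rw [Nat.le_div_iff_mul_le (hγ1 m), hg]
      calc Nat.sqrt m * (σ + 1) ≤ Nat.sqrt m * Nat.sqrt m := Nat.mul_le_mul_left _ h4
        _ ≤ m := Nat.sqrt_le m
    exact h5.trans (Finset.le_sup (f := fun i => i / γ i) (Finset.mem_range.2 (Nat.lt_succ_self m)))
  · intro c
    filter_upwards [hσ.eventually_ge_atTop (4 * c + 4)] with m hm s hs
    set σ := Nat.sqrt (min (β m) (Nat.sqrt m)) with hσd
    have h1 : σ * σ ≤ min (β m) (Nat.sqrt m) := Nat.sqrt_le _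
    have h2 : σ * σ ≤ β m := h1.trans (min_le_left _ _)
    have h3 : σ * σ ≤ Nat.sqrt m := h1.trans (min_le_right _ _)
    have hg : γ m = σ + 1 := rfl
    have h4 : σ + 1 ≤ Nat.sqrt m := by nlinarith
    have h5 : Nat.sqrt m ≤ m / γ m := by
      rw [Nat.le_div_iff_mul_le (hγ1 m), hg]
      calc Nat.sqrt m * (σ + 1) ≤ Nat.sqrt m * Nat.sqrt m := Nat.mul_le_mul_left _ h4
        _ ≤ m := Nat.sqrt_le m
    have h6 : 2 ^ (m / γ m) ≤ s := by
      refine le_trans (Nat.pow_le_pow_right (by norm_num) ?_) hs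
      exact Finset.le_sup (f := fun i => i / γ i) (Finset.mem_range.2 (Nat.lt_succ_self m))
    have h7 : β m ≤ b s := hb (le_trans (Nat.pow_le_pow_right (by norm_num) h5) h6)
    set d := m / γ m with hd
    have hd1 : 1 ≤ d := by omega
    have h8 : m < (d + 1) * γ m := by
      rw [hd]
      exact Nat.lt_mul_of_div_lt (Nat.lt_succ_self _) (hγ1 m)
    have h9 : c * m < d * (β m + 1) := by
      have e1 : c * m ≤ c * ((d + 1) * γ m) := Nat.mul_le_mul_left _ h8.le
      have e2 : c * ((d + 1) * γ m) ≤ c * ((2 * d) * (2 * σ)) := by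
        refine Nat.mul_le_mul_left _ (Nat.mul_le_mul (by omega) ?_)
        rw [hg]
        omega
      have e3 : c * ((2 * d) * (2 * σ)) = d * (4 * c * σ) := by ring
      have e4 : 4 * c * σ ≤ β m := by
        calc 4 * c * σ ≤ σ * σ := Nat.mul_le_mul_right _ (by omega)
          _ ≤ β m := h2
      have e5 : d * (4 * c * σ) ≤ d * β m := Nat.mul_le_mul_left _ e4
      have e6 : d * (β m + 1) = d * β m + d := by ring
      omega
    calc 2 ^ (c * m) < 2 ^ (d * (β m + 1)) := Nat.pow_lt_pow_right (by norm_num) h9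
      _ = (2 ^ d) ^ (β m + 1) := by rw [pow_mul]
      _ ≤ s ^ (β m + 1) := Nat.pow_le_pow_left h6 _
      _ ≤ s ^ (b s + 1) := Nat.pow_le_pow_right
          (le_trans (Nat.one_le_two_pow) h6) (by omega)

end Pool.Agent.J6H49.SZ
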