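import Pool.Agent.J6H49.SZ.Count
import Pool.Agent.H622R2.Exp.YAux

/-!
# Exponential time has small circuits
-/

set_option autoImplicit false

namespace Pool.Agent.J6H49.SZ

open Pool.Agent.NPC Pool.Agent.H628R3.RO Filter Pool.Agent.J6H49.OP Pool.Agent.J6H49.IP
open MeasureTheory
open Pool.Agent.J6H54.RO
open Pool.Agent.H620R2.Gauge (SAlg)
open Pool.Agent.TH678.GC (join)
open Pool.Agent.TH678.RS (bt bt_mono)
open Pool.Agent.Y626.WX (Cp cod agree_emb exists_cp)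
open Pool.Agent.J6H49.PHC (oracle)
open Pool.Agent.J6H49.ES (InTimePow)

theorem poly_ln (q : Polynomial ℕ) (c : ℕ) : ∃ c' : ℕ, ∀ m : ℕ, 1 ≤ m →
    q.eval (ln c m) ≤ 2 ^ (c' * m) := by
  obtain ⟨d, -, hd⟩ := Pool.Agent.H622R2.Exp.YAux.poly_bound q
  refine ⟨2 * (c + 3) * d, fun m hm => ?_⟩
  have h1 : ln c m + 2 ≤ 2 ^ ((m + 1) * (c + 3)) := by
    unfold ln
    rw [← pow_mul]
    have h2 : m + 1 < 2 ^ (m + 1) := Nat.lt_two_pow_self
    have h3 : 2 ^ ((m + 1) * c) ≤ 2 ^ ((m + 1) * (c + 2)) :=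
      Nat.pow_le_pow_right (by norm_num) (Nat.mul_le_mul_left _ (by omega))
    have h4 : 2 ^ ((m + 1) * 2) ≤ 2 ^ ((m + 1) * (c + 2)) :=
      Nat.pow_le_pow_right (by norm_num) (Nat.mul_le_mul_left _ (by omega))
    have h5 : 2 ^ ((m + 1) * 2) = 2 ^ (m + 1) * 2 ^ (m + 1) := by rw [← pow_add]; congr 1; ring
    have h6 : 2 * (m + 1) + 1 ≤ 2 ^ (m + 1) * 2 ^ (m + 1) := by nlinarith
    have h7 : 2 * 2 ^ ((m + 1) * (c + 2)) ≤ 2 ^ ((m + 1) * (c + 3)) := by
      rw [← pow_succ']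
      exact Nat.pow_le_pow_right (by norm_num) (by nlinarith)
    omega
  calc q.eval (ln c m) ≤ (ln c m + 2) ^ d := hd _
    _ ≤ (2 ^ ((m + 1) * (c + 3))) ^ d := Nat.pow_le_pow_left h1 d
    _ = 2 ^ ((m + 1) * (c + 3) * d) := by rw [← pow_mul]
    _ ≤ 2 ^ (2 * (c + 3) * d * m) := by
        refine Nat.pow_le_pow_right (by norm_num) ?_
        have : (m + 1) * ((c + 3) * d) ≤ (2 * m) * ((c + 3) * d) :=
          Nat.mul_le_mul_right _ (by omega)
        calc (m + 1) * (c + 3) * d = (m + 1) * ((c + 3) * d) := by ring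
          _ ≤ (2 * m) * ((c + 3) * d) := this
          _ = _ := by ring

theorem mul_le_two_pow_sqrt (k : ℕ) : ∀ᶠ m : ℕ in atTop, k * m ≤ 2 ^ Nat.sqrt m := by
  obtain ⟨N, hN⟩ := poly_le_two_pow (Polynomial.C k * (Polynomial.X + 1) ^ 2)
  filter_upwards [eventually_ge_atTop (N * N)] with m hm
  have h1 := hN (Nat.sqrt m) (Nat.le_sqrt.2 hm)
  simp only [Polynomial.eval_mul, Polynomial.eval_C, Polynomial.eval_pow, Polynomial.eval_add,
    Polynomial.eval_X, Polynomial.eval_one] at h1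
  have h2 : m ≤ (Nat.sqrt m + 1) ^ 2 := by
    have := Nat.lt_succ_sqrt m
    rw [pow_two]
    exact this.le
  have h3 : k * m ≤ k * (Nat.sqrt m + 1) ^ 2 := Nat.mul_le_mul_left _ h2
  omega

section

variable {Φ : Oracle → Oracle} {C : Oracle} {h : ℕ → ℕ} {en : ℕ → Alg × ℕ} {α : ℕ → ℕ}
  {g : ℕ → SAlg × Polynomial ℕ} {S : ℕ → Polynomial ℕ}

/-- the properties of the function `h` -/
structure Hp (α h : ℕ → ℕ) : Prop where
  le : ∀ m, h m ≤ m
  small : ∀ k : ℕ, ∀ᶠ m in atTop, k * h m ≤ m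
  sqrt : ∀ᶠ m in atTop, Nat.sqrt m ≤ h m
  late : ∀ c : ℕ, ∀ᶠ m in atTop, ∀ s, 2 ^ h m ≤ s → 2 ^ (c * m) < s ^ (bt α s + 1)

theorem exists_Hp (hα : Monotone α) (hα' : Tendsto α atTop atTop) : ∃ h, Hp α h := by
  obtain ⟨h, h1, h2, h3, h4⟩ := exists_h (bt α) (bt_mono hα) (by
    rw [tendsto_atTop]
    intro c
    obtain ⟨a, ha⟩ := eventually_atTop.1 (hα'.eventually_ge_atTop c)
    filter_upwards [eventually_ge_atTop (2 ^ (a + c))] with s hs
    have h1 : a + c ≤ Nat.log 2 s := Nat.le_log_of_pow_le (by norm_num) hs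
    exact le_min (ha _ (by omega)) (by omega))
  exact ⟨h, h1, h2, h3, h4⟩

theorem ae_Zb (hc : Cp g S (bt α) Φ) (hh : Hp α h) (M : Alg) (c : ℕ) :
    ∀ᵐ A ∂randomOracle, ∀ᶠ m : ℕ in atTop, A ∉ Zb Φ C h en M c m := by
  obtain ⟨c₁, hc₁⟩ := poly_ln (qb M) c
  obtain ⟨c₂, hc₂⟩ := poly_ln M.p c
  obtain ⟨m₀, hm₀⟩ := eventually_atTop.1 ((((hh.late c₁).and hh.sqrt).and
    ((mul_le_two_pow_sqrt (c₂ + 4)).and (mul_le_two_pow_sqrt c₁))).and (eventually_ge_atTop 1))
  have h1 : ∀ m, prob (Zb Φ C h en M c (m + m₀)) ≤ (1 / 2) ^ m := by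
    intro m
    obtain ⟨⟨⟨h2, h3⟩, h4, h5⟩, h6⟩ := hm₀ (m + m₀) (by omega)
    set N := m + m₀ with hN
    have h7 := hc₁ N h6
    have h8 := hc₂ N h6
    have hG : (qb M).eval (ln c N) ≤ G N := by
      refine h7.trans ?_
      unfold G
      refine Nat.pow_le_pow_right (by norm_num) (h5.trans ?_)
      exact Nat.pow_le_pow_right (by norm_num) ((Nat.sqrt_le_self N).trans (by omega))
    refine (prob_Zb hc hh.le hG fun s hs => h7.trans_lt (h2 s hs)).trans ?_
    have h9 : (N + 1) * (2 ^ N * M.p.eval (ln c N)) * 2 ^ N ≤ 2 ^ (2 ^ h N) := by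
      have e1 : N + 1 ≤ 2 ^ (N + 1) := Nat.lt_two_pow_self.le
      calc (N + 1) * (2 ^ N * M.p.eval (ln c N)) * 2 ^ N
          ≤ 2 ^ (N + 1) * (2 ^ N * 2 ^ (c₂ * N)) * 2 ^ N :=
            Nat.mul_le_mul_right _ (Nat.mul_le_mul e1 (Nat.mul_le_mul_left _ h8))
        _ = 2 ^ (N + 1 + (N + c₂ * N) + N) := by
            rw [pow_add 2 (N + 1 + (N + c₂ * N)) N, pow_add 2 (N + 1) (N + c₂ * N),
              pow_add 2 N (c₂ * N)]
        _ ≤ 2 ^ ((c₂ + 4) * N) := by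
            refine Nat.pow_le_pow_right (by norm_num) ?_
            have : (c₂ + 4) * N = c₂ * N + 4 * N := by ring
            omega
        _ ≤ 2 ^ (2 ^ h N) := by
            refine Nat.pow_le_pow_right (by norm_num) (h4.trans ?_)
            exact Nat.pow_le_pow_right (by norm_num) h3
    have h10 : (((N + 1) * (2 ^ N * M.p.eval (ln c N)) : ℕ) : ℝ) * 2 ^ N ≤ 2 ^ (2 ^ h N) := by
      exact_mod_cast h9
    have h11 : (0 : ℝ) < 2 ^ (2 ^ h N) := by positivity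
    have h12 : (0 : ℝ) < 2 ^ N := by positivity
    calc (((N + 1) * (2 ^ N * M.p.eval (ln c N)) : ℕ) : ℝ) / 2 ^ (2 ^ h N) ≤ 1 / 2 ^ N := by
          rw [div_le_div_iff₀ h11 h12, one_mul]
          exact h10
      _ = (1 / 2) ^ N := by rw [one_div_pow]
      _ ≤ (1 / 2) ^ m := pow_le_pow_of_le_one (by norm_num) (by norm_num) (by omega)
  have h2 : ∑' m, randomOracle (Zb Φ C h en M c (m + m₀)) ≠ ⊤ := by
    have hs : Summable (fun n : ℕ => (1 / 2 : ℝ) ^ n) :=
      summable_geometric_of_lt_one (by norm_num) (by norm_num)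
    have h3 : ∀ m, randomOracle (Zb Φ C h en M c (m + m₀)) ≤ ENNReal.ofReal ((1 / 2) ^ m) :=
      fun m => (prob_le_iff (by positivity)).1 (h1 m)
    exact ne_top_of_le_ne_top hs.tsum_ofReal_ne_top (ENNReal.tsum_le_tsum h3)
  filter_upwards [ae_eventually_notMem h2] with A hA
  obtain ⟨a, ha⟩ := eventually_atTop.1 hA
  filter_upwards [eventually_ge_atTop (a + m₀)] with m hm
  have h4 := ha (m - m₀) (by omega)
  rwa [Nat.sub_add_cancel (by omega)] at h4

theorem ae_stable (hc : Cp g S (bt α) Φ) (hh : Hp α h) : ∀ᵐ A ∂randomOracle,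
    ∀ q : Alg × ℕ, ∀ᶠ n : ℕ in atTop, ∀ x : List Bool, x.length = n →
      q.1.out (Oa Φ C h en A) (pd q.2 x) = q.1.out (Om Φ C h en n A) (pd q.2 x) := by
  have h1 : ∀ᵐ A ∂randomOracle, ∀ q : Alg × ℕ, ∀ᶠ m : ℕ in atTop, A ∉ Zb Φ C h en q.1 q.2 m := by
    rw [ae_all_iff]
    exact fun q => ae_Zb hc hh q.1 q.2
  filter_upwards [h1] with A hA q
  obtain ⟨m₀, hm₀⟩ := eventually_atTop.1 (hA q)
  filter_upwards [eventually_ge_atTop m₀] with n hn x hx
  have h2 : ∀ j, q.1.out (Om Φ C h en (n + j) A) (pd q.2 x) =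
      q.1.out (Om Φ C h en n A) (pd q.2 x) := by
    intro j
    induction j with
    | zero => rfl
    | succ j ih =>
      rw [← ih]
      by_contra hcon
      refine hm₀ (n + j) (by omega) ?_
      unfold Zb
      simp only [Set.mem_iUnion, Finset.mem_range]
      exact ⟨n, by omega, x, hx, hcon⟩
  set R := (qb q.1).eval (pd q.2 x).length with hR
  rw [← h2 R]
  refine out_eq fun u hu => ?_
  exact Oa_eq hc (by omega)

end

/-- the size -/
theorem ev_size {h : ℕ → ℕ} (h1 : ∀ k : ℕ, ∀ᶠ m in atTop, k * h m ≤ m) (e k : ℕ) :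
    ∀ᶠ n : ℕ in atTop, (2 ^ h n + 2 * n + e + 8) ^ k ≤ 2 ^ n := by
  obtain ⟨N, hN⟩ := poly_le_two_pow ((2 * Polynomial.X + Polynomial.C (e + 8)) ^ (2 * k) *
    Polynomial.C (2 ^ (2 * k)))
  filter_upwards [h1 (4 * k), eventually_ge_atTop N] with n h2 h3
  have h4 := hN n h3
  simp only [Polynomial.eval_mul, Polynomial.eval_C, Polynomial.eval_pow, Polynomial.eval_add,
    Polynomial.eval_X, Polynomial.eval_ofNat] at h4
  have h5 : 2 ^ h n + 2 * n + e + 8 ≤ 2 ^ h n * (2 * (2 * n + (e + 8))) := by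
    have : 1 ≤ 2 ^ h n := Nat.one_le_two_pow
    nlinarith
  -- compare the squares
  have h6 : (2 ^ h n + 2 * n + e + 8) ^ (2 * k) ≤ 2 ^ n * 2 ^ n := by
    calc (2 ^ h n + 2 * n + e + 8) ^ (2 * k) ≤
        (2 ^ h n * (2 * (2 * n + (e + 8)))) ^ (2 * k) := Nat.pow_le_pow_left h5 _
      _ = 2 ^ (h n * (2 * k)) * ((2 * n + (e + 8)) ^ (2 * k) * 2 ^ (2 * k)) := by
          rw [mul_pow, mul_pow, ← pow_mul]
          ring
      _ ≤ 2 ^ n * 2 ^ n := by
          refine Nat.mul_le_mul (Nat.pow_le_pow_right (by norm_num) ?_) (by omega)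
          nlinarith
  by_contra hcon
  push Not at hcon
  have h7 : 2 ^ n * 2 ^ n < (2 ^ h n + 2 * n + e + 8) ^ k * (2 ^ h n + 2 * n + e + 8) ^ k :=
    Nat.mul_lt_mul'' hcon hcon
  have h8 : (2 ^ h n + 2 * n + e + 8) ^ k * (2 ^ h n + 2 * n + e + 8) ^ k =
      (2 ^ h n + 2 * n + e + 8) ^ (2 * k) := by
    rw [← pow_add]
    congr 1
    ring
  omega

theorem main (α : ℕ → ℕ) (hα : Monotone α) (hα' : Tendsto α atTop atTop) (C : Oracle) :
    ∃ O : Oracle → Oracle,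
      (∀ A, NearlyCollapsed α (O A) ∧ Contains (O A) A ∧ Contains (O A) C) ∧
      ∀ᵐ A ∂randomOracle, ∀ L : Set (List Bool), InTimePow (fun n => 2 ^ (n + 1)) (O A) L →
        ∀ k : ℕ, ∀ᶠ n : ℕ in atTop, ∃ D : List Gate, size D ^ k ≤ 2 ^ n ∧
          Computes (O A) D L n := by
  obtain ⟨g, hg⟩ := Pool.Agent.H620R2.Gauge.CC.exists_enum
  obtain ⟨S, Φ, hc⟩ := exists_cp g (bt (slow2 α))
  obtain ⟨h, hh⟩ := exists_Hp (slow2_mono hα) (slow2_tendsto hα')
  have hne : Nonempty (Alg × ℕ) := ⟨(⟨_, Pool.Agent.H620R2.Gauge.CC.const_polyTime [], 0⟩, 0)⟩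
  obtain ⟨en, hen⟩ := exists_surjective_nat (Alg × ℕ)
  refine ⟨Oa Φ C h en, fun A => ⟨?_, ⟨[false, false], fun x => rfl⟩,
    ⟨[false, true, false], fun x => rfl⟩⟩, ?_⟩
  · exact nearly hg hα hc (join A (join C (Ta Φ C h en A)))
  · filter_upwards [ae_stable (C := C) (en := en) hc hh] with A hA L hL k
    obtain ⟨c, L', ⟨V, ⟨M, hM⟩, hx'⟩, hx⟩ := hL
    obtain ⟨e, he⟩ := hen (M, c)
    obtain ⟨c₁, hc₁⟩ := poly_ln (qb M) c
    filter_upwards [hA (M, c), eventually_ge_atTop e, mul_le_two_pow_sqrt c₁,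
      eventually_ge_atTop 1, ev_size hh.small e k] with n h1 h2 h3 h4 h5
    refine ⟨one ([false, true, true] ++ pos n e (key h n A)) n, ?_, fun x hxn => ?_⟩
    · rw [size_one, List.length_append, length_pos, length_key]
      refine le_trans (Nat.pow_le_pow_left ?_ k) h5
      simp only [List.length_cons, List.length_nil]
      omega
    · subst hxn
      rw [wires_one]
      have e1 : ([false, true, true] ++ pos x.length e (key h x.length A)) ++ x =
          [false, true, true] ++ pos x.length e (key h x.length A ++ x) := by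
        unfold pos
        simp
      rw [e1]
      show Ta Φ C h en A (pos x.length e (key h x.length A ++ x)) = true ↔ _
      rw [Ta_at rfl h2]
      unfold Wc
      rw [he]
      dsimp only
      have h6 : (qb M).eval (pd c x).length ≤ G x.length := by
        rw [length_pd' rfl]
        refine (hc₁ _ h4).trans ?_
        unfold G
        refine Nat.pow_le_pow_right (by norm_num) (h3.trans ?_)
        exact Nat.pow_le_pow_right (by norm_num) ((Nat.sqrt_le_self _).trans (by omega))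
      rw [and_iff_right h6]
      have h7 := h1 x rfl
      change M.out (Om Φ C h en x.length A) (pd c x) = some [true] ↔ _
      rw [← h7, hM, Option.some.injEq, hx x, hx']
      rfl

end Pool.Agent.J6H49.SZ
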