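import Pool.Agent.J6H49.SZ.Fn
import Pool.Agent.J6H49.SZ.Defs
import Pool.Agent.J6H49.IP.Inside

/-!
# The hidden tables
-/

set_option autoImplicit false

namespace Pool.Agent.J6H49.SZ

open Pool.Agent.NPC Pool.Agent.H628R3.RO Filter Pool.Agent.J6H49.OP Pool.Agent.J6H49.IP
open MeasureTheory
open Pool.Agent.J6H54.RO
open Pool.Agent.H620R2.Gauge (SAlg)
open Pool.Agent.TH678.GC (join)
open Pool.Agent.TH678.RS (bt)
open Pool.Agent.Y626.WX (Cp cod agree_emb)
open Pool.Agent.J6H49.PHC (oracle)
open Pool.Agent.J6H7.RO (ovw ovw_pos ovw_off)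

/-- the machines of the level `n` look at strings of length at most `G n` only -/
def G (n : ℕ) : ℕ := 2 ^ 2 ^ (n + 2)

theorem G_mono : Monotone G := fun _ _ h =>
  Nat.pow_le_pow_right (by norm_num) (Nat.pow_le_pow_right (by norm_num) (by omega))

theorem two_pow_le_G (n : ℕ) : 2 ^ n + 3 ≤ G n := by
  unfold G
  have h1 : n + 2 < 2 ^ (n + 2) := Nat.lt_two_pow_self
  have h2 : 2 ^ (n + 2) ≤ 2 ^ 2 ^ (n + 2) := Nat.pow_le_pow_right (by norm_num) h1.le
  have h3 : 2 ^ (n + 2) = 4 * 2 ^ n := by rw [pow_add]; ring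
  have h4 : 1 ≤ 2 ^ n := Nat.one_le_two_pow
  omega

theorem G_step (n : ℕ) : G n + 2 ^ n + 3 ≤ G (n + 1) := by
  have h1 := two_pow_le_G n
  have h2 : G (n + 1) = G n * G n := by
    unfold G
    rw [← pow_add]
    congr 1
    ring
  rw [h2]
  have h3 : 4 ≤ G n := by
    have : 1 ≤ 2 ^ n := Nat.one_le_two_pow
    omega
  nlinarith

/-- the positions of the bits of the key -/
def kp (n : ℕ) (i : ℕ) : List Bool := pos (G n + 1) i []

theorem length_kp (n i : ℕ) : (kp n i).length = G n + 3 + i := by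
  unfold kp
  rw [length_pos, List.length_nil]
  omega

/-- the key of the level `n` -/
def key (h : ℕ → ℕ) (n : ℕ) (A : Oracle) : List Bool :=
  (List.range (2 ^ h n)).map fun i => A (kp n i)

theorem length_key (h : ℕ → ℕ) (n : ℕ) (A : Oracle) : (key h n A).length = 2 ^ h n := by
  simp [key]

/-- the padded input -/
def pd (c : ℕ) (x : List Bool) : List Bool :=
  pairBits x (List.replicate ((2 ^ (x.length + 1)) ^ c) true)

theorem length_pd (c : ℕ) (x : List Bool) :
    (pd c x).length = 2 * x.length + 1 + (2 ^ (x.length + 1)) ^ c := by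
  unfold pd
  rw [length_pairBits, List.length_replicate]

section

variable (Φ : Oracle → Oracle) (C : Oracle) (h : ℕ → ℕ) (en : ℕ → Alg × ℕ)

/-- the machine number `e` accepts `x`, relative to the oracle with the tables `D` -/
def Wc (D A : Oracle) (e : ℕ) (x : List Bool) : Prop :=
  (qb (en e).1).eval (pd (en e).2 x).length ≤ G x.length ∧
    (en e).1.out (oracle Φ (join C D) A) (pd (en e).2 x) = some [true]

/-- the string belongs to the table of the level `n` -/
def Lv (D A : Oracle) (n : ℕ) (v : List Bool) : Prop :=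
  ∃ e x, e ≤ n ∧ x.length = n ∧ v = pos n e (key h n A ++ x) ∧ Wc Φ C en D A e x

open Classical in
/-- the tables of the levels less than `n` -/
noncomputable def Tn (A : Oracle) : ℕ → Oracle
  | 0 => fun _ => false
  | n + 1 => fun v => Tn A n v || decide (Lv Φ C h en (Tn A n) A n v)

open Classical in
/-- all tables -/
noncomputable def Ta (A : Oracle) : Oracle := fun v => decide (∃ n, Tn Φ C h en A n v = true)

variable {Φ C h en}

open Classical in
theorem Tn_iff {A : Oracle} {n : ℕ} {v : List Bool} : Tn Φ C h en A n v = true ↔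
    ∃ m < n, Lv Φ C h en (Tn Φ C h en A m) A m v := by
  induction n with
  | zero =>
    constructor
    · intro h
      simp [Tn] at h
    · rintro ⟨m, hm, -⟩
      omega
  | succ n ih =>
    rw [Tn, Bool.or_eq_true, ih, decide_eq_true_eq]
    constructor
    · rintro (⟨m, hm, h1⟩ | h1)
      · exact ⟨m, by omega, h1⟩
      · exact ⟨n, by omega, h1⟩
    · rintro ⟨m, hm, h1⟩
      rcases Nat.lt_succ_iff_lt_or_eq.1 hm with h2 | rfl
      · exact Or.inl ⟨m, h2, h1⟩
      · exact Or.inr h1

open Classical in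
theorem Ta_iff {A : Oracle} {v : List Bool} : Ta Φ C h en A v = true ↔
    ∃ m, Lv Φ C h en (Tn Φ C h en A m) A m v := by
  unfold Ta
  rw [decide_eq_true_eq]
  constructor
  · rintro ⟨n, hn⟩
    obtain ⟨m, -, h1⟩ := Tn_iff.1 hn
    exact ⟨m, h1⟩
  · rintro ⟨m, h1⟩
    exact ⟨m + 1, Tn_iff.2 ⟨m, by omega, h1⟩⟩

theorem Lv.eq {D A : Oracle} {n : ℕ} {v : List Bool} (h1 : Lv Φ C h en D A n v) :
    n + 2 ^ h n < v.length := by
  obtain ⟨e, x, -, hx, rfl, -⟩ := h1
  rw [length_pos, List.length_append, length_key]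
  omega

theorem Lv.at {D A : Oracle} {n m e : ℕ} {x : List Bool} (hx : x.length = n) (he : e ≤ n) :
    Lv Φ C h en D A m (pos n e (key h n A ++ x)) ↔ m = n ∧ Wc Φ C en D A e x := by
  constructor
  · rintro ⟨e', x', he', hx', h1, h2⟩
    obtain ⟨h3, h4, h5⟩ := pos_inj h1
    subst h3 h4
    have h6 := List.append_inj h5 rfl
    rw [h6.2]
    exact ⟨rfl, h2⟩
  · rintro ⟨rfl, h2⟩
    exact ⟨e, x, he, hx, rfl, h2⟩

theorem Ta_at {A : Oracle} {n e : ℕ} {x : List Bool} (hx : x.length = n) (he : e ≤ n) :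
    Ta Φ C h en A (pos n e (key h n A ++ x)) = true ↔ Wc Φ C en (Tn Φ C h en A n) A e x := by
  rw [Ta_iff]
  constructor
  · rintro ⟨m, h1⟩
    obtain ⟨rfl, h2⟩ := (Lv.at hx he).1 h1
    exact h2
  · exact fun h1 => ⟨n, (Lv.at hx he).2 ⟨rfl, h1⟩⟩

/-- the tables of high levels have long strings only -/
theorem Ta_eq {A : Oracle} {n : ℕ} {v : List Bool} (hv : v.length ≤ n) :
    Ta Φ C h en A v = Tn Φ C h en A n v := by
  rw [Bool.eq_iff_iff, Ta_iff, Tn_iff]
  constructor
  · rintro ⟨m, h1⟩
    have h2 := h1.eq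
    have h3 : 0 < 2 ^ h m := Nat.two_pow_pos _
    exact ⟨m, by omega, h1⟩
  · rintro ⟨m, -, h1⟩
    exact ⟨m, h1⟩

open Classical in
theorem Tn_succ {A : Oracle} {n : ℕ} {v : List Bool}
    (hv : ¬ Lv Φ C h en (Tn Φ C h en A n) A n v) :
    Tn Φ C h en A (n + 1) v = Tn Φ C h en A n v := by
  show (Tn Φ C h en A n v || decide (Lv Φ C h en (Tn Φ C h en A n) A n v)) = _
  rw [decide_eq_false hv, Bool.or_false]

variable {α : ℕ → ℕ} {g : ℕ → SAlg × Polynomial ℕ} {S : ℕ → Polynomial ℕ}

theorem Wc_congr (hc : Cp g S (bt α) Φ) {D A A' : Oracle} {e : ℕ} {x : List Bool}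
    (hA : ∀ u : List Bool, u.length ≤ G x.length → A u = A' u) :
    Wc Φ C en D A e x ↔ Wc Φ C en D A' e x := by
  unfold Wc
  refine and_congr_right fun h1 => ?_
  rw [out_loc hc (en e).1 (fun _ _ => rfl) hA h1]

theorem key_congr {A A' : Oracle} {n : ℕ}
    (hA : ∀ u : List Bool, u.length ≤ G n + 2 ^ h n + 3 → A u = A' u) :
    key h n A = key h n A' := by
  unfold key
  apply List.map_congr_left
  intro i hi
  rw [List.mem_range] at hi
  apply hA
  rw [length_kp]
  omega

open Classical in
/-- **Locality.** -/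
theorem Tn_congr (hc : Cp g S (bt α) Φ) (hh : ∀ n, h n ≤ n) {A A' : Oracle} {n : ℕ}
    (hA : ∀ u : List Bool, u.length ≤ G n → A u = A' u) :
    Tn Φ C h en A n = Tn Φ C h en A' n := by
  induction n with
  | zero => rfl
  | succ n ih =>
    have h1 : Tn Φ C h en A n = Tn Φ C h en A' n :=
      ih fun u hu => hA u (hu.trans (G_mono (by omega)))
    have h2 : key h n A = key h n A' := by
      refine key_congr fun u hu => hA u (hu.trans ?_)
      have h3 : 2 ^ h n ≤ 2 ^ n := Nat.pow_le_pow_right (by norm_num) (hh n)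
      have := G_step n
      omega
    funext v
    show (Tn Φ C h en A n v || decide (Lv Φ C h en (Tn Φ C h en A n) A n v)) =
      (Tn Φ C h en A' n v || decide (Lv Φ C h en (Tn Φ C h en A' n) A' n v))
    rw [h1]
    congr 1
    apply decide_eq_decide.2
    unfold Lv
    refine exists_congr fun e => exists_congr fun x => and_congr_right fun _ =>
      and_congr_right fun hx => ?_
    rw [h2]
    refine and_congr_right fun _ => ?_
    exact Wc_congr hc fun u hu => hA u (hu.trans (G_mono (by omega)))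

/-- the oracle with the tables of the levels less than `m` -/
noncomputable def Om (Φ : Oracle → Oracle) (C : Oracle) (h : ℕ → ℕ) (en : ℕ → Alg × ℕ) (m : ℕ)
    (A : Oracle) : Oracle := oracle Φ (join C (Tn Φ C h en A m)) A

/-- the oracle -/
noncomputable def Oa (Φ : Oracle → Oracle) (C : Oracle) (h : ℕ → ℕ) (en : ℕ → Alg × ℕ)
    (A : Oracle) : Oracle := oracle Φ (join C (Ta Φ C h en A)) A

theorem Oa_eq (hc : Cp g S (bt α) Φ) {A : Oracle} {n : ℕ} {q : List Bool} (hq : q.length ≤ n) :
    Oa Φ C h en A q = Om Φ C h en n A q := by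
  refine O_loc hc (ℓ := n) (fun u hu => ?_) (fun _ _ => rfl) hq
  match u with
  | [] => rfl
  | false :: _ => rfl
  | true :: v =>
    show Ta Φ C h en A v = Tn Φ C h en A n v
    rw [List.length_cons] at hu
    exact Ta_eq (by omega)

theorem Om_congr (hc : Cp g S (bt α) Φ) (hh : ∀ n, h n ≤ n) {A A' : Oracle} {m : ℕ}
    (hA : ∀ u : List Bool, u.length ≤ G m → A u = A' u) {q : List Bool} (hq : q.length ≤ G m) :
    Om Φ C h en m A q = Om Φ C h en m A' q := by
  unfold Om
  rw [Tn_congr hc hh hA]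
  exact O_loc hc (fun _ _ => rfl) hA hq

/-- the difference between two consecutive oracles -/
theorem Om_succ (hc : Cp g S (bt α) Φ) {A : Oracle} {m R : ℕ}
    (hR : ∀ s, 2 ^ h m ≤ s → R < s ^ (bt α s + 1)) {q : List Bool} (hq : q.length ≤ R)
    (hne : ∀ e x, q ≠ [false, true, true] ++ pos m e (key h m A ++ x)) :
    Om Φ C h en (m + 1) A q = Om Φ C h en m A q := by
  set D := Tn Φ C h en A m with hD
  set D' := Tn Φ C h en A (m + 1) with hD'
  have h1 : ∀ v : List Bool, v.length < 2 ^ h m → D' v = D v := by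
    intro v hv
    refine Tn_succ fun h2 => ?_
    have := h2.eq
    omega
  show join (join A (join C D')) (cod Φ (join A (join C D'))) q =
    join (join A (join C D)) (cod Φ (join A (join C D))) q
  match q with
  | [] => rfl
  | false :: [] => rfl
  | false :: false :: x => rfl
  | false :: true :: [] => rfl
  | false :: true :: false :: x => rfl
  | false :: true :: true :: v =>
    show D' v = D v
    refine Tn_succ ?_
    rintro ⟨e, x, -, -, h2, -⟩
    exact hne e x (by rw [h2]; rfl)
  | true :: u =>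
    have h2 := agree_emb hc (L := 2 ^ h m) (T := R) hR (A := join A (join C D'))
      (A' := join A (join C D)) (fun u hu => ?_) (true :: u) hq
    · exact h2
    · match u with
      | [] => rfl
      | false :: _ => rfl
      | true :: [] => rfl
      | true :: false :: _ => rfl
      | true :: true :: v =>
        show D' v = D v
        rw [List.length_cons, List.length_cons] at hu
        exact h1 v (by omega)

end

end Pool.Agent.J6H49.SZ
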